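import Pool.Agent.R357.MC.Fin
import Pool.Agent.R357.MC.C11202

set_option autoImplicit false

open Pool.Agent.R357.MC

namespace Pool.Agent.Results.MP_c7ed95_nt.FivePoints

/-- `11202` is a strong MC number, and the circle with centre `(1/4, 1/4)` and radius `√(28561/8)` is a largest
circle enclosing exactly `11202` lattice points; exactly five lattice points lie on it. -/
theorem result : IsStrong 11202 ∧ IsMCCircle 11202 (1 / 4, 1 / 4) (√(28561 / 8)) ∧
    (onCircle (1 / 4, 1 / 4) (√(28561 / 8))).ncard = 5 := by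
  have e1 : P11202.c0 = (1 / 4, 1 / 4) := by unfold Par.c0 P11202; norm_num
  have e2 : P11202.rho = √(28561 / 8) := by unfold Par.rho Par.rho2 P11202; norm_num
  have h1 := cert11202.isMCCircle (by decide)
  have h2 := cert11202.on_ncard
  have h3 : ¬ IsMC (11202 + 1) :=
    cert11202.not_mc' (by decide) 1 rfl (by decide) (by decide) (0, 1) 91 (by decide) (by decide +kernel)
  rw [e1, e2] at h1 h2
  refine ⟨⟨⟨_, _, h1⟩, h3⟩, h1, ?_⟩
  rw [h2]
  decide +kernel

end Pool.Agent.Results.MP_c7ed95_nt.FivePoints
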